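import Pool.Agent.H744R3.ZP.CoeffA
import Pool.Agent.H680R3.ZP.Stmts

/-! P4a of the ZP project (helper744, for helper680). -/

set_option autoImplicit false

namespace Pool.Agent.H744R3.ZP

theorem taskCoeff : H680ZP.TaskCoeff := by
  intro X R _ d c hd hfin m
  exact ⟨fin d hd hfin m, coeff_eq d c hd hfin m⟩

end Pool.Agent.H744R3.ZP
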