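import Pool.Agent.H639R3.Euler

/-! P4a of the ZP project (helper744, for helper680): coefficients of an Euler product as sums over
effective divisors. -/

set_option autoImplicit false

namespace Pool.Agent.H744R3.ZP

open PowerSeries Pool.Agent.H639R3

variable {X R : Type} [Field R] (d : X → ℕ) (c : X → R)

/-- the exponent vector `x ↦ D x * d x` -/
noncomputable def lift (D : X →₀ ℕ) : X →₀ ℕ :=
  Finsupp.onFinset D.support (fun x => D x * d x) (by
    intro x hx
    rw [Finsupp.mem_support_iff]
    intro h
    apply hx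
    rw [h, zero_mul])

theorem lift_apply (D : X →₀ ℕ) (x : X) : lift d D x = D x * d x := rfl

theorem lift_inj (hd : ∀ x, 0 < d x) : Function.Injective (lift d) := by
  intro D E h
  ext x
  have := DFunLike.congr_fun h x
  rw [lift_apply, lift_apply] at this
  exact Nat.eq_of_mul_eq_mul_right (hd x) this

theorem supp_sub (hfin : ∀ m, {x | d x ≤ m}.Finite) (m : ℕ) (D : X →₀ ℕ)
    (hD : (D.sum fun x j => j * d x) = m) : D.support ⊆ (hfin m).toFinset := by
  intro x hx
  rw [Set.Finite.mem_toFinset, Set.mem_ofPred_eq]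
  have h1 : D x * d x ≤ D.sum fun x j => j * d x :=
    Finset.single_le_sum (f := fun x => D x * d x) (fun _ _ => Nat.zero_le _) hx
  have h2 : 1 ≤ D x := Nat.one_le_iff_ne_zero.mpr (Finsupp.mem_support_iff.mp hx)
  calc d x = 1 * d x := (one_mul _).symm
    _ ≤ D x * d x := Nat.mul_le_mul_right _ h2
    _ ≤ m := by rw [← hD]; exact h1

theorem sum_eq (hfin : ∀ m, {x | d x ≤ m}.Finite) (m : ℕ) (D : X →₀ ℕ)
    (hs : D.support ⊆ (hfin m).toFinset) :
    (D.sum fun x j => j * d x) = ∑ x ∈ (hfin m).toFinset, lift d D x := by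
  rw [Finsupp.sum_of_support_subset D hs _ (by simp)]
  rfl

theorem lift_mem [DecidableEq X] (hfin : ∀ m, {x | d x ≤ m}.Finite) (m : ℕ) (D : X →₀ ℕ)
    (hD : (D.sum fun x j => j * d x) = m) :
    lift d D ∈ Finset.finsuppAntidiag (hfin m).toFinset m := by
  have hs := supp_sub d hfin m D hD
  rw [Finset.mem_finsuppAntidiag]
  refine ⟨?_, ?_⟩
  · rw [← sum_eq d hfin m D hs]; exact hD
  · refine subset_trans ?_ hs
    exact Finsupp.support_onFinset_subset

theorem fin (hd : ∀ x, 0 < d x) (hfin : ∀ m, {x | d x ≤ m}.Finite) (m : ℕ) :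
    {D : X →₀ ℕ | (D.sum fun x j => j * d x) = m}.Finite := by
  classical
  refine Set.Finite.of_finite_image (f := lift d) ?_ ((lift_inj d hd).injOn)
  refine (Finset.finite_toSet (Finset.finsuppAntidiag (hfin m).toFinset m)).subset ?_
  rintro _ ⟨D, hD, rfl⟩
  exact lift_mem d hfin m D hD

theorem coeff_eq (hd : ∀ x, 0 < d x) (hfin : ∀ m, {x | d x ≤ m}.Finite) (m : ℕ) :
    coeff m (eulerProduct d c) =
      ∑ᶠ D ∈ {D : X →₀ ℕ | (D.sum fun x j => j * d x) = m}, D.prod fun x j => c x ^ j := by
  classical
  rw [coeff_eulerProduct d hd hfin, PowerSeries.coeff_prod,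
    finsum_mem_eq_finite_toFinset_sum _ (fin d hd hfin m)]
  symm
  refine Finset.sum_of_injOn (lift d) ((lift_inj d hd).injOn) ?_ ?_ ?_
  · intro D hD
    have hD' : (D.sum fun x j => j * d x) = m := by simpa using hD
    exact lift_mem d hfin m D hD'
  · intro l hl hnot
    by_contra hne
    rw [← ne_eq, Finset.prod_ne_zero_iff] at hne
    apply hnot
    rw [Finset.mem_finsuppAntidiag] at hl
    have hdvd : ∀ x, d x ∣ l x := by
      intro x
      by_cases hx : x ∈ (hfin m).toFinset
      · have := hne x hx
        rw [coeff_mk] at this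
        by_contra h
        rw [if_neg h] at this
        exact this rfl
      · have : l x = 0 := by
          by_contra h
          exact hx (hl.2 (Finsupp.mem_support_iff.mpr h))
        rw [this]
        exact dvd_zero _
    set D : X →₀ ℕ := Finsupp.onFinset l.support (fun x => l x / d x) (by
      intro x hx
      rw [Finsupp.mem_support_iff]
      intro h
      apply hx
      rw [h, Nat.zero_div]) with hDdef
    have hlift : lift d D = l := by
      ext x
      rw [lift_apply]
      exact Nat.div_mul_cancel (hdvd x)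
    have hs : D.support ⊆ (hfin m).toFinset :=
      subset_trans Finsupp.support_onFinset_subset hl.2
    refine ⟨D, ?_, hlift⟩
    have : (D.sum fun x j => j * d x) = m := by
      rw [sum_eq d hfin m D hs, hlift]
      exact hl.1
    simpa using this
  · intro D hD
    have hD' : (D.sum fun x j => j * d x) = m := by simpa using hD
    have hs := supp_sub d hfin m D hD'
    rw [Finsupp.prod_of_support_subset D hs _ (by simp)]
    apply Finset.prod_congr rfl
    intro x _
    rw [coeff_mk, lift_apply, if_pos (dvd_mul_left _ _), Nat.mul_div_cancel _ (hd x)]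

end Pool.Agent.H744R3.ZP
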